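import Pool.Agent.Q269.DX.JQ.StmB

/-!
# JQ-LAJ: the joint law of the dimensions
-/

set_option autoImplicit false

namespace Pool.Agent.Q269.DX.A154

open Pool.Agent.Q269.DX.Bs (ze ze_add)

open Finset Module
open Pool.Agent.Q269.DX.Bs (prs ext)
open Pool.Agent.Q269.DX.JQ
open Pool.Agent.Q269.SL (law2 lam2)
open scoped Classical

section alt

variable {K V : Type} [Field K] [AddCommGroup V] [Module K V] [FiniteDimensional K V]
  (B : V →ₗ[K] V →ₗ[K] K)

/-- The radical of the restriction of `B` to `U`. -/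
def rad (U : Submodule K V) : Submodule K V where
  carrier := {z | z ∈ U ∧ ∀ w ∈ U, B z w = 0}
  zero_mem' := ⟨U.zero_mem, by simp⟩
  add_mem' := by
    rintro a b ⟨h1, h2⟩ ⟨h3, h4⟩
    exact ⟨U.add_mem h1 h3, fun w hw => by simp [h2 w hw, h4 w hw]⟩
  smul_mem' := by
    rintro c a ⟨h1, h2⟩
    exact ⟨U.smul_mem c h1, fun w hw => by simp [h2 w hw]⟩

omit [FiniteDimensional K V] in
theorem mem_rad (U : Submodule K V) (z : V) : z ∈ rad B U ↔ z ∈ U ∧ ∀ w ∈ U, B z w = 0 := Iff.rfl

theorem even_rank (hB : ∀ x, B x x = 0) : ∀ (n : ℕ) (U : Submodule K V), finrank K U = n →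
    Even (finrank K U + finrank K (rad B U)) := by
  have hskew : ∀ x y, B x y = - B y x := by
    intro x y
    have h := hB (x + y)
    simp only [LinearMap.add_apply, map_add] at h
    rw [hB x, hB y] at h
    linear_combination h
  intro n
  induction n using Nat.strong_induction_on with
  | _ n ih =>
    intro U hU
    by_cases h0 : ∀ x ∈ U, ∀ y ∈ U, B x y = 0
    · have : rad B U = U := by
        ext z
        rw [mem_rad]
        exact ⟨fun h => h.1, fun h => ⟨h, h0 z h⟩⟩
      rw [this]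
      exact ⟨_, rfl⟩
    · push Not at h0
      obtain ⟨x, hx, y, hy, hxy⟩ := h0
      have hyx : B y x ≠ 0 := by
        intro h
        apply hxy
        rw [hskew, h, neg_zero]
      -- the map to the plane
      let f : U →ₗ[K] (Fin 2 → K) :=
        LinearMap.pi ![(B x).comp U.subtype, (B y).comp U.subtype]
      have hf : ∀ z : U, f z = ![B x z, B y z] := by
        intro z
        ext i
        fin_cases i <;> rfl
      have hsurj : LinearMap.range f = ⊤ := by
        rw [LinearMap.range_eq_top]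
        intro c
        refine ⟨(c 0 / B x y) • ⟨y, hy⟩ + (c 1 / B y x) • ⟨x, hx⟩, ?_⟩
        rw [hf]
        ext i
        fin_cases i
        · simp [hB, hxy]
        · simp [hB, hyx]
      let U' : Submodule K V := (LinearMap.ker f).map U.subtype
      have hU' : ∀ z, z ∈ U' ↔ z ∈ U ∧ B x z = 0 ∧ B y z = 0 := by
        intro z
        constructor
        · rintro ⟨w, hw, rfl⟩
          have h1 : f w = 0 := hw
          rw [hf] at h1
          exact ⟨w.2, congrFun h1 0, congrFun h1 1⟩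
        · rintro ⟨h1, h2, h3⟩
          refine ⟨⟨z, h1⟩, ?_, rfl⟩
          show f ⟨z, h1⟩ = 0
          rw [hf]
          ext i
          fin_cases i
          · exact h2
          · exact h3
      have hd : finrank K U' = finrank K (LinearMap.ker f) :=
        LinearEquiv.finrank_eq (Submodule.equivMapOfInjective _ U.injective_subtype _).symm
      have hrk := LinearMap.finrank_range_add_finrank_ker f
      rw [hsurj, finrank_top, finrank_fin_fun] at hrk
      have hrad : rad B U' = rad B U := by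
        ext z
        rw [mem_rad, mem_rad, hU']
        constructor
        · rintro ⟨⟨h1, h2, h3⟩, h4⟩
          refine ⟨h1, fun w hw => ?_⟩
          -- decompose `w`
          let a := B x w / B x y
          let b := B y w / B y x
          have hw' : w - a • y - b • x ∈ U' := by
            rw [hU']
            refine ⟨U.sub_mem (U.sub_mem hw (U.smul_mem _ hy)) (U.smul_mem _ hx), ?_, ?_⟩
            · simp only [map_sub, map_smul, smul_eq_mul, hB, mul_zero, sub_zero, a]
              rw [div_mul_cancel₀ _ hxy, sub_self]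
            · simp only [map_sub, map_smul, smul_eq_mul, hB, mul_zero, sub_zero, b]
              rw [div_mul_cancel₀ _ hyx, sub_self]
          have h5 := h4 _ hw'
          simp only [map_sub, map_smul, smul_eq_mul] at h5
          rw [hskew z y, h3, hskew z x, h2] at h5
          simpa using h5
        · rintro ⟨h1, h2⟩
          refine ⟨⟨h1, ?_, ?_⟩, ?_⟩
          · rw [hskew, h2 x hx, neg_zero]
          · rw [hskew, h2 y hy, neg_zero]
          · intro w hw
            exact h2 w ((hU' w).1 hw).1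
      have := ih (finrank K U') (by omega) U' rfl
      rw [hrad] at this
      obtain ⟨k, hk⟩ := this
      exact ⟨k + 1, by omega⟩


end alt

theorem even_of_nd {V : Type} [AddCommGroup V] [Module (ZMod 2) V] [Finite V]
    (ω : V →ₗ[ZMod 2] V →ₗ[ZMod 2] ZMod 2) (halt : ∀ x, ω x x = 0)
    (nd : ∀ x, (∀ y, ω x y = 0) → x = 0) : Even (finrank (ZMod 2) V) := by
  have h := even_rank ω halt _ (⊤ : Submodule (ZMod 2) V) rfl
  have h2 : rad ω ⊤ = ⊥ := by
    rw [Submodule.eq_bot_iff]
    intro x hx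
    rw [mem_rad] at hx
    exact nd x fun y => hx.2 y trivial
  rw [h2, finrank_bot, finrank_top, add_zero] at h
  exact h

theorem mem_prs {ι : Type} [Fintype ι] [LinearOrder ι] (i j : ι) :
    (i, j) ∈ prs (univ : Finset ι) ↔ i < j := by
  unfold prs
  rw [mem_filter]
  simp only [mem_univ, true_and, forall_const]
  exact ⟨fun h => h.2, fun h => ⟨h.ne', h⟩⟩

theorem ext_lt {ι : Type} [Fintype ι] [LinearOrder ι] (α : prs (univ : Finset ι) → ZMod 2) {i j : ι}
    (h : i < j) : ext α i j = α ⟨(i, j), (mem_prs i j).2 h⟩ := by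
  unfold Pool.Agent.Q269.DX.Bs.ext
  rw [dif_pos ((mem_prs i j).2 h)]

theorem ext_gt {ι : Type} [Fintype ι] [LinearOrder ι] (α : prs (univ : Finset ι) → ZMod 2) {i j : ι}
    (h : i < j) : ext α j i = α ⟨(i, j), (mem_prs i j).2 h⟩ := by
  unfold Pool.Agent.Q269.DX.Bs.ext
  rw [dif_neg (fun h' => absurd ((mem_prs j i).1 h') h.asymm),
    dif_pos ⟨(mem_prs i j).2 h, mem_univ _⟩]

theorem ext_comm {ι : Type} [Fintype ι] [LinearOrder ι] (α : prs (univ : Finset ι) → ZMod 2)
    (i j : ι) : ext α i j = ext α j i := by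
  rcases lt_trichotomy i j with h | h | h
  · rw [ext_lt α h, ext_gt α h]
  · rw [h]
  · rw [ext_lt α h, ext_gt α h]

section blk

variable {s U ι : Type} [Fintype s] [Fintype U] [Fintype ι] [LinearOrder ι]

theorem rec_of {b : Bk s U ι} {t₀ : s} {ρ : s → ZMod 2} {R : ℕ} (hb : b.Ok t₀ ρ R)
    (α : prs (univ : Finset ι) → ZMod 2) : Rec (b.N t₀ α) b.h t₀ := by
  intro p q hpq
  rcases p with u | i <;> rcases q with u' | j
  · exact hb.rU u u' fun h => hpq (by rw [h])
  · show b.C j u = b.B u j + ze (b.hU u) t₀ * ze (b.hJ j) t₀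
    rw [hb.rJ, add_assoc, CharTwo.add_self_eq_zero, add_zero]
  · show b.B u' i = b.C i u' + ze (b.hJ i) t₀ * ze (b.hU u') t₀
    rw [hb.rJ, mul_comm]
  · show ext α j i + (if i < j then ze (b.hJ j) t₀ * ze (b.hJ i) t₀ else 0) =
      ext α i j + (if j < i then ze (b.hJ i) t₀ * ze (b.hJ j) t₀ else 0) + ze (b.hJ i) t₀ * ze (b.hJ j) t₀
    have hij : i ≠ j := fun h => hpq (by rw [h])
    rw [ext_comm α j i]
    rcases lt_or_gt_of_ne hij with h | h
    · rw [if_pos h, if_neg h.asymm, add_zero, mul_comm]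
    · rw [if_pos h, if_neg h.asymm, add_zero, add_assoc, CharTwo.add_self_eq_zero, add_zero]

theorem exists_label {b : Bk s U ι} {t₀ : s} {ρ : s → ZMod 2} {R : ℕ} (hb : b.Ok t₀ ρ R)
    (hR : 1 ≤ R) (φ : s → ZMod 2) : ∃ i, b.hJ i = φ := by
  have h1 := hb.many φ
  have h2 : 0 < (univ.filter fun i => b.hJ i = φ).card := by
    refine lt_of_lt_of_le ?_ h1
    positivity
  obtain ⟨i, hi⟩ := card_pos.1 h2
  exact ⟨i, (mem_filter.1 hi).2⟩

theorem spn_of {b : Bk s U ι} {t₀ : s} {ρ : s → ZMod 2} {R : ℕ} (hb : b.Ok t₀ ρ R)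
    (hR : 1 ≤ R) : Spn b.h := by
  intro l hl
  funext t
  obtain ⟨i, hi⟩ := exists_label hb hR (Pi.single t 1)
  have h := hl (Sum.inr i)
  have h2 : b.h (Sum.inr i) = Pi.single t 1 := hi
  rw [h2] at h
  simp only [Pi.single_apply, mul_ite, mul_one, mul_zero, sum_ite_eq', mem_univ, if_true] at h
  exact h

theorem mono_ok {b : Bk s U ι} {t₀ : s} {ρ : s → ZMod 2} {R R' : ℕ} (hb : b.Ok t₀ ρ R)
    (h : R' ≤ R) : b.Ok t₀ ρ R' where
  rU := hb.rU
  rJ := hb.rJ
  nd := hb.nd
  many φ := (Nat.mul_le_mul_right _ h).trans (hb.many φ)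
  tot := hb.tot

end blk

/-- the torsion injects -/
theorem finrank_le {s V P : Type} [Fintype s] [AddCommGroup V] [Module (ZMod 2) V] [Finite V]
    [Fintype P] [Nonempty P] (hTOR : S_TOR) (D : Dj s V) (ρ : s → ZMod 2) (hD : D.Ok ρ)
    (N : P → P → ZMod 2) (h : P → s → ZMod 2) (htot : ∑ p, h p = ρ) :
    finrank (ZMod 2) V ≤ finrank (ZMod 2) (Sel D N h) := by
  let f : V →ₗ[ZMod 2] ((s → V) × (P → V)) :=
    { toFun := fun x => ((fun t => D.T (Pi.single t 1) x), (fun _ => x))
      map_add' := fun x y => by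
        refine Prod.ext ?_ rfl
        funext t
        exact map_add _ _ _
      map_smul' := fun c x => by
        refine Prod.ext ?_ rfl
        funext t
        exact map_smul _ _ _ }
  have hf : ∀ x, f x ∈ Sel D N h := fun x => hTOR s V P D ρ hD N h htot x
  have hinj : Function.Injective (f.codRestrict (Sel D N h) hf) := by
    intro x y hxy
    have h1 : f x = f y := congrArg Subtype.val hxy
    have h2 : (f x).2 = (f y).2 := by rw [h1]
    obtain ⟨p⟩ := (inferInstance : Nonempty P)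
    exact congrFun h2 p
  exact LinearMap.finrank_le_finrank_of_injective hinj

theorem card_two {W : Type} [AddCommGroup W] [Module (ZMod 2) W] [Finite W] :
    (Nat.card W : ℝ) = 2 ^ finrank (ZMod 2) W := by
  have h := Module.natCard_eq_pow_finrank (K := ZMod 2) (V := W)
  rw [h]
  simp

theorem card_UV {κ : Type} [Fintype κ] (V : κ → Type) [∀ k, AddCommGroup (V k)]
    [∀ k, Module (ZMod 2) (V k)] [∀ k, Finite (V k)] (m : κ → ℕ) :
    (Nat.card (UV V m) : ℝ) = ∏ k, (Nat.card (V k) : ℝ) ^ m k := by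
  have h1 : Nat.card (UV V m) = ∏ c : (Σ k, Fin (m k)), Nat.card (V c.1) := Nat.card_pi
  rw [h1]
  push_cast
  rw [Fintype.prod_sigma]
  refine prod_congr rfl fun k _ => ?_
  simp

theorem t_LAJ (hLAM : S_LAM) (hSS : S_SS) (hCNT : S_CNT) (hPAR : S_PAR) (hTOR : S_TOR)
    (hPI : S_PI) (hMOM : S_MOM) : S_LAJ := by
  intro s κ _ _ V _ _ _ _ t₀ ρ D hs₀ hOk hAdj r ε hε
  obtain ⟨M, δ, hδ, hM⟩ := hMOM κ (fun k => ((finrank (ZMod 2) (D k).pm : ℕ) : ZMod 2)) r ε hε
  have h1 : ∀ m : κ → ℕ, ∃ R : ℕ, 1 ≤ R ∧ ∀ (U ι : Type) [Fintype U] [Fintype ι] [LinearOrder ι]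
      (b : Bk s U ι), b.Ok t₀ ρ R →
      |(∑ α : prs (univ : Finset ι) → ZMod 2, (cnt (DD t₀ D m) b (GmD V) α : ℝ)) /
        2 ^ (prs (univ : Finset ι)).card -
        (Nat.card (UV V m) : ℝ) * ∏ k, (2 : ℝ) ^ (m k * (m k + 1) / 2)| ≤ δ := by
    intro m
    obtain ⟨hc, hS, hΛ⟩ := hSS s κ V t₀ ρ D hs₀ hOk hAdj m
    have hok : (DD t₀ D m).Ok ρ := (hPI s (Σ k, Fin (m k)) (fun c => V c.1) t₀ ρ (fun c => D c.1)
      (fun c => hs₀ c.1) (fun c => hOk c.1)).1
    obtain ⟨R, hR1, hR⟩ := hLAM s (UV V m) (DD t₀ D m) ρ hok (GmD V) (SS V m) hS hΛ δ hδ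
    refine ⟨R, hR1, ?_⟩
    intro U ι _ _ _ b hb
    rw [← hc]
    exact hR U ι b hb
  choose Rf hRf1 hRf using h1
  refine ⟨max ((Fintype.piFinset fun _ : κ => range (M + 1)).sup Rf) 1, le_max_right _ _, ?_⟩
  intro U ι _ _ _ b hb
  have hb1 : b.Ok t₀ ρ 1 := mono_ok hb (le_max_right _ _)
  obtain ⟨i₀, -⟩ := exists_label hb1 le_rfl 0
  have : Nonempty (U ⊕ ι) := ⟨Sum.inr i₀⟩
  have hle : ∀ (α : prs (univ : Finset ι) → ZMod 2) (k : κ),
      finrank (ZMod 2) (V k) ≤ finrank (ZMod 2) (Sel (D k) (b.N t₀ α) b.h) := fun α k =>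
    finrank_le hTOR (D k) ρ (hOk k) _ _ hb.tot
  obtain ⟨e, he⟩ : ∃ e : (prs (univ : Finset ι) → ZMod 2) → κ → ℕ, ∀ α k,
      finrank (ZMod 2) (Sel (D k) (b.N t₀ α) b.h) = finrank (ZMod 2) (V k) + e α k :=
    ⟨fun α k => finrank (ZMod 2) (Sel (D k) (b.N t₀ α) b.h) - finrank (ZMod 2) (V k), fun α k =>
      (Nat.add_sub_cancel' (hle α k)).symm⟩
  have hpar : ∀ α k, ((e α k : ℕ) : ZMod 2) = ((finrank (ZMod 2) (D k).pm : ℕ) : ZMod 2) := by
    intro α k
    have h2 := hPAR s (V k) (U ⊕ ι) (D k) ρ (hOk k) (b.N t₀ α) b.h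
      (by rw [hs₀ k]; exact rec_of hb1 α) (spn_of hb1 le_rfl)
    rw [he α k] at h2
    have h3 : Even (finrank (ZMod 2) (V k)) := even_of_nd (D k).ω (hOk k).alt (hOk k).nd
    obtain ⟨a, ha⟩ := h3
    rw [ha] at h2
    push_cast at h2
    rw [CharTwo.add_self_eq_zero, zero_add] at h2
    exact h2
  have hΩ : (Fintype.card (prs (univ : Finset ι) → ZMod 2) : ℝ) = 2 ^ (prs (univ : Finset ι)).card := by
    rw [Fintype.card_fun, ZMod.card, Fintype.card_coe]
    push_cast
    rfl
  have hmain := hM (prs (univ : Finset ι) → ZMod 2) e hpar (by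
    intro m hm
    have hmem : m ∈ Fintype.piFinset fun _ : κ => range (M + 1) := by
      rw [Fintype.mem_piFinset]
      intro k
      rw [mem_range]
      exact Nat.lt_succ_of_le (hm k)
    have h2 := hRf m U ι b (mono_ok hb ((Finset.le_sup (f := Rf) hmem).trans (le_max_left _ _)))
    have h3 : ∀ α, (cnt (DD t₀ D m) b (GmD V) α : ℝ) = (Nat.card (UV V m) : ℝ) *
        ∏ k, ∏ i ∈ range (m k), ((2 : ℝ) ^ e α k - 2 ^ i) := by
      intro α
      rw [hCNT s κ V t₀ ρ D hs₀ hOk m U ι b hb1 α, card_UV, ← prod_mul_distrib]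
      refine prod_congr rfl fun k _ => ?_
      have h4 : (Nat.card (Sel (D k) (b.N t₀ α) b.h) : ℝ) =
          (Nat.card (V k) : ℝ) * 2 ^ e α k := by
        rw [card_two, he α k, pow_add, card_two]
      rw [h4]
      have h5 : ∀ i ∈ range (m k), (Nat.card (V k) : ℝ) * 2 ^ e α k - (Nat.card (V k) : ℝ) * 2 ^ i =
          (Nat.card (V k) : ℝ) * (2 ^ e α k - 2 ^ i) := fun i _ => by ring
      rw [prod_congr rfl h5, prod_mul_distrib, prod_const, card_range]
    rw [sum_congr rfl fun α _ => h3 α, ← mul_sum, mul_div_assoc, ← mul_sub, abs_mul] at h2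
    rw [hΩ]
    have h6 : (1 : ℝ) ≤ |(Nat.card (UV V m) : ℝ)| := by
      rw [abs_of_nonneg (Nat.cast_nonneg _)]
      have : Finite (UV V m) := inferInstance
      have : Nonempty (UV V m) := ⟨0⟩
      exact_mod_cast Nat.card_pos
    refine le_trans ?_ h2
    exact le_mul_of_one_le_left (abs_nonneg _) h6)
  rw [hΩ] at hmain
  have hset : (univ.filter fun α : prs (univ : Finset ι) → ZMod 2 =>
        ∀ k, finrank (ZMod 2) (Sel (D k) (b.N t₀ α) b.h) = finrank (ZMod 2) (V k) + r k) =
      univ.filter fun w => e w = r := by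
    ext α
    simp only [mem_filter, mem_univ, true_and]
    constructor
    · intro h
      funext k
      have h2 := h k
      rw [he α k] at h2
      omega
    · intro h k
      rw [he α k, h]
  rw [hset]
  exact hmain

end Pool.Agent.Q269.DX.A154
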